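import Pool.Agent.P.MP_97fbd9_an.Final

/-! For every finite order of smoothness there is a torus diffeomorphism with two saddles that are
not homoclinically related and whose homoclinic classes meet in a set of positive entropy. -/

namespace Pool.Agent.Results.MP_97fbd9_an.UnrelatedEntropy

open Pool.Agent.P.MP_97fbd9_an

theorem result (r : ℕ) : ∃ (f : Torus ≃ₜ Torus) (F G : ℝ × ℝ → ℝ × ℝ) (O O' : Torus),
    ContDiff ℝ r F ∧ ContDiff ℝ r G ∧ IsLift f F ∧ IsLift f.symm G ∧ Saddle f F O ∧
      Saddle f F O' ∧ 0 < Dynamics.coverEntropy f (HC f O ∩ HC f O') ∧ ¬ Related f O O' :=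
  main r

end Pool.Agent.Results.MP_97fbd9_an.UnrelatedEntropy
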